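import Pool.Agent.Helper97.Spectra.Full

/-!
# Degree spectra of `V` and of the Presburger group `V × ℤ`

For every nontrivial countable divisible ordered abelian group `V` the degree spectrum of
`(V, +, <, 0)` equals the degree spectrum of `(V × ℤ, +, <, 0, 1)`, where `V × ℤ` carries the
lexicographic order with the `V`-coordinate dominant and `1 = (0, 1)`.
-/

namespace Pool.Agent.Results.MP_7e7dce_lc.EqualSpectra

open Pool.Agent.Helper97.Spectra

theorem result (V : Type*) [AddCommGroup V] [LinearOrder V] [IsOrderedAddMonoid V]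
    [Countable V] [Nontrivial V] (hdiv : ∀ n : ℕ, 0 < n → ∀ v : V, ∃ w : V, n • w = v) :
    (DgSp V ![0]).Nonempty ∧ DgSp V ![0] = DgSp (V ×ₗ ℤ) ![0, toLex (0, 1)] := by
  refine ⟨?_, dgSp_eq hdiv⟩
  have : Infinite V := NoMaxOrder.infinite
  obtain ⟨hd⟩ := nonempty_denumerable V
  let f : ℕ ≃ V := (Denumerable.eqv V).symm
  exact ⟨_, ⟨fun a b => f.symm (f a + f b), fun a b => f a < f b, fun i => f.symm (![0] i)⟩,
    ⟨f, fun a b => f.apply_symm_apply _, fun a b => Iff.rfl, fun i => f.apply_symm_apply _⟩, rfl⟩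

end Pool.Agent.Results.MP_7e7dce_lc.EqualSpectra
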